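import Pool.Agent.Q264.KS.Stm

/-!
# Job FINB of project KS: strict convexity
-/

set_option autoImplicit false

namespace Pool.Agent.Q18.KS

open Pool.Agent.Q264.KS

universe u

theorem refl_bound {X : Type u} [NormedAddCommGroup X] [NormedSpace ℝ X] (v : X) (hv : ‖v‖ = 1)
    (g : X →ₗ[ℝ] ℝ) (hg : ∀ z, ‖z - (2 * g z) • v‖ = ‖z‖) (z : X) : |g z| ≤ ‖z‖ := by
  have h1 : ‖(2 * g z) • v‖ ≤ ‖z‖ + ‖z‖ := by
    calc ‖(2 * g z) • v‖ = ‖z - (z - (2 * g z) • v)‖ := by rw [sub_sub_cancel]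
      _ ≤ ‖z‖ + ‖z - (2 * g z) • v‖ := norm_sub_le _ _
      _ = ‖z‖ + ‖z‖ := by rw [hg]
  rw [norm_smul, hv, mul_one, Real.norm_eq_abs, abs_mul, abs_two] at h1
  linarith

theorem t_FINB : S_FINB.{u} := by
  intro X _ _ hR x y hx hy l hl0 hl1 hl
  by_contra hxy
  have key : ∀ t : ℝ, 0 < t → t < 1 → ‖(1 - t) • x + t • y‖ = 1 →
      ∃ g : X →ₗ[ℝ] ℝ, (∀ z, |g z| ≤ ‖z‖) ∧ g x = 1 ∧ g y = 1 ∧
        ∀ z, ‖z - (2 * g z) • ((1 - t) • x + t • y)‖ = ‖z‖ := by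
    intro t ht0 ht1 ht
    obtain ⟨g, hg1, hg⟩ := hR _ ht
    have hb := refl_bound _ ht g hg
    have h1 : g x ≤ 1 := (le_abs_self _).trans ((hb x).trans_eq hx)
    have h2 : g y ≤ 1 := (le_abs_self _).trans ((hb y).trans_eq hy)
    have h3 : (1 - t) * g x + t * g y = 1 := by
      rw [map_add, map_smul, map_smul, smul_eq_mul, smul_eq_mul] at hg1
      exact hg1
    exact ⟨g, hb, by nlinarith, by nlinarith, hg⟩
  obtain ⟨g, hgb, hgx, hgy, -⟩ := key l hl0 hl1 hl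
  have hone : ∀ t : ℝ, 0 < t → t < 1 → ‖(1 - t) • x + t • y‖ = 1 := by
    intro t ht0 ht1
    refine le_antisymm ?_ ?_
    · refine (norm_add_le _ _).trans ?_
      rw [norm_smul, norm_smul, hx, hy, Real.norm_eq_abs, Real.norm_eq_abs,
        abs_of_pos (by linarith), abs_of_pos ht0]
      linarith
    · refine le_trans ?_ (hgb _)
      rw [map_add, map_smul, map_smul, hgx, hgy]
      simp
  have hrefl : ∀ t : ℝ, 0 < t → t < 1 → ∀ s : ℝ,
      ‖(1 - (2 * t - s)) • x + (2 * t - s) • y‖ = ‖(1 - s) • x + s • y‖ := by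
    intro t ht0 ht1 s
    obtain ⟨g, -, hgx, hgy, hg⟩ := key t ht0 ht1 (hone t ht0 ht1)
    rw [← hg ((1 - s) • x + s • y), ← norm_neg]
    congr 1
    rw [map_add, map_smul, map_smul, hgx, hgy]
    simp only [smul_eq_mul]
    module
  have hshift : ∀ s : ℝ, ‖(1 - (s + 2 / 3)) • x + (s + 2 / 3) • y‖ = ‖(1 - s) • x + s • y‖ := by
    intro s
    have h1 := hrefl (1 / 3) (by norm_num) (by norm_num) s
    have h2 := hrefl (2 / 3) (by norm_num) (by norm_num) (2 * (1 / 3) - s)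
    rw [← h1, ← h2]
    congr 1
    module
  have hall : ∀ n : ℕ, ‖(1 - (n : ℝ) * (2 / 3)) • x + ((n : ℝ) * (2 / 3)) • y‖ = 1 := by
    intro n
    induction n with
    | zero => simpa using hx
    | succ n ih =>
      have h := hshift ((n : ℝ) * (2 / 3))
      rw [ih] at h
      refine Eq.trans ?_ h
      congr 1
      push_cast
      module
  have hd : 0 < ‖y - x‖ := norm_pos_iff.2 (sub_ne_zero.2 (Ne.symm hxy))
  obtain ⟨n, hn⟩ := exists_nat_gt (3 / ‖y - x‖)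
  have h1 : ((n : ℝ) * (2 / 3)) * ‖y - x‖ ≤ 2 := by
    have h2 : ((n : ℝ) * (2 / 3)) * ‖y - x‖ = ‖((n : ℝ) * (2 / 3)) • (y - x)‖ := by
      rw [norm_smul, Real.norm_eq_abs, abs_of_nonneg (by positivity)]
    rw [h2]
    calc ‖((n : ℝ) * (2 / 3)) • (y - x)‖
        = ‖((1 - (n : ℝ) * (2 / 3)) • x + ((n : ℝ) * (2 / 3)) • y) - x‖ := by
          congr 1
          module
      _ ≤ ‖(1 - (n : ℝ) * (2 / 3)) • x + ((n : ℝ) * (2 / 3)) • y‖ + ‖x‖ := norm_sub_le _ _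
      _ = 2 := by rw [hall, hx]; norm_num
  rw [div_lt_iff₀ hd] at hn
  linarith

end Pool.Agent.Q18.KS
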