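import Pool.Agent.Q264.KS.Stm3

/-!
# S2C of the project KS (MP_a3b3eb_an)
-/

namespace Pool.Agent.Q18.KS3

open Module Filter Topology Pool.Agent.Q264.KS

universe u

theorem D_self {X : Type*} [NormedAddCommGroup X] [NormedSpace ℝ X] {x : X} (h : Sm x) :
    D x x = ‖x‖ := by
  unfold D
  exact DifferentiableAt.fderiv_norm_self h

theorem D_le {X : Type*} [NormedAddCommGroup X] [NormedSpace ℝ X] (x y : X) :
    |D x y| ≤ ‖y‖ := by
  have h1 : ‖D x‖ ≤ 1 := by
    have h2 : LipschitzWith 1 (fun z : X => ‖z‖) := lipschitzWith_one_norm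
    have h3 := norm_fderiv_le_of_lipschitz ℝ (x₀ := x) h2
    simpa [D] using h3
  have h2 : ‖D x y‖ ≤ ‖D x‖ * ‖y‖ := (D x).le_opNorm y
  rw [Real.norm_eq_abs] at h2
  nlinarith [norm_nonneg y]

theorem t_S2C : S_S2C.{u} := by
  intro hS2 hBJD hUNI X _ _ _ h3 hP z x v g hz hL hx hxz hgv hDv hv hne a b ha hb
  obtain ⟨xs, hsm, hxs, hD⟩ := hL
  have hev : ∀ w : X, Tendsto (fun k => D (xs k) w) atTop (𝓝 (g w)) := by
    intro w
    exact ((ContinuousLinearMap.apply ℝ ℝ w).continuous.tendsto g).comp hD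
  have hgle : ∀ w : X, g w ≤ ‖w‖ := by
    intro w
    exact le_of_tendsto (hev w) (Eventually.of_forall fun k => le_trans (le_abs_self _) (D_le _ _))
  -- g z = 1
  have hgz : g z = 1 := by
    have h1 : Tendsto (fun k => D (xs k) (xs k)) atTop (𝓝 (g z)) := by
      have h2 : Tendsto (fun k => D (xs k) z + D (xs k) (xs k - z)) atTop (𝓝 (g z + 0)) := by
        apply (hev z).add
        apply squeeze_zero_norm (a := fun k => ‖xs k - z‖)
        · intro k
          rw [Real.norm_eq_abs]
          exact D_le _ _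
        · have := (hxs.sub_const z).norm
          simpa using this
      rw [add_zero] at h2
      refine h2.congr ?_
      intro k
      rw [map_sub]
      ring
    have h2 : Tendsto (fun k => D (xs k) (xs k)) atTop (𝓝 ‖z‖) := by
      refine hxs.norm.congr ?_
      intro k
      exact (D_self (hsm k)).symm
    rw [← hz]
    exact tendsto_nhds_unique h1 h2
  have hxn : (15 : ℝ) / 16 ≤ ‖x‖ := by
    have h1 : ‖z‖ ≤ ‖x‖ + ‖x - z‖ := by
      have h2 : z = x - (x - z) := by abel
      calc ‖z‖ = ‖x - (x - z)‖ := by rw [← h2]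
        _ ≤ ‖x‖ + ‖x - z‖ := norm_sub_le _ _
    rw [hz] at h1
    linarith
  have hxpos : 0 < ‖x‖ := by linarith
  have hDz : 0 < D x z := by
    have h1 : D x z = ‖x‖ - D x (x - z) := by
      rw [map_sub, D_self hx]
      ring
    have h2 := le_trans (le_abs_self _) (D_le x (x - z))
    linarith
  have hDz1 : D x z ≤ 1 := by
    have h2 := le_trans (le_abs_self _) (D_le x z)
    linarith
  -- q
  obtain ⟨q, hDq, hgq⟩ : ∃ q : X, D x q = 0 ∧ g q = 1 := by
    by_contra hcon
    push Not at hcon
    have hker : ∀ w, D x w = 0 → g w = 0 := by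
      intro w hw
      by_contra h0
      apply hcon ((g w)⁻¹ • w)
      · rw [map_smul, hw, smul_zero]
      · rw [map_smul, smul_eq_mul, inv_mul_cancel₀ h0]
    set c : ℝ := g x / ‖x‖ with hc
    have hgc : ∀ w, g w = c * D x w := by
      intro w
      have h1 := hker (w - (D x w / ‖x‖) • x) (by
        rw [map_sub, map_smul, D_self hx, smul_eq_mul, div_mul_cancel₀ _ hxpos.ne', sub_self])
      rw [map_sub, map_smul, smul_eq_mul] at h1
      rw [hc]
      have h2 : g w = D x w / ‖x‖ * g x := by linarith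
      rw [h2]
      ring
    have hc1 : c ≤ 1 := by
      have h1 := hgle x
      rw [hc, div_le_one hxpos]
      exact h1
    have hc2 : 1 ≤ c := by
      have h1 := hgc z
      rw [hgz] at h1
      by_contra h0
      push Not at h0
      nlinarith
    have hc3 : c = 1 := le_antisymm hc1 hc2
    apply hne
    ext w
    rw [hgc w, hc3, one_mul]
  -- the sequence v k
  set vk : ℕ → X := fun k => v - (D (xs k) v / D (xs k) q) • q with hvk
  have hvt : Tendsto vk atTop (𝓝 v) := by
    have h1 : Tendsto (fun k => D (xs k) v / D (xs k) q) atTop (𝓝 (g v / g q)) :=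
      (hev v).div (hev q) (by rw [hgq]; exact one_ne_zero)
    rw [hgv, zero_div] at h1
    have h2 := (h1.smul_const q).const_sub v
    simpa [hvk] using h2
  have e1 : ∀ᶠ k in atTop, D (xs k) q ≠ 0 := by
    have h1 := hev q
    rw [hgq] at h1
    exact h1.eventually_ne one_ne_zero
  have e2 : ∀ᶠ k in atTop, vk k ≠ 0 := hvt.eventually_ne hv
  have hd : Tendsto (fun k => ‖xs k - x‖) atTop (𝓝 ‖z - x‖) := (hxs.sub_const x).norm
  have hzx : ‖z - x‖ ≤ 1 / 16 := by rw [norm_sub_rev]; exact hxz
  have e3 : ∀ᶠ k in atTop, ‖xs k - x‖ < 17 / 16 / 16 := by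
    apply hd.eventually_lt_const
    linarith
  have e4 : ∀ᶠ k in atTop, (15 : ℝ) / 16 < ‖xs k‖ := by
    apply hxs.norm.eventually_const_lt
    rw [hz]
    norm_num
  have hBJ : ∀ᶠ k in atTop, BJ (a • xs k + b • x) (vk k) := by
    filter_upwards [e1, e2, e3, e4] with k h1 h2 h3' h4
    apply hS2 hBJD hUNI X h3 hP (xs k) x (vk k) (hsm k) hx
    · linarith
    · linarith
    · simp only [hvk]
      rw [map_sub, map_smul, smul_eq_mul, div_mul_cancel₀ _ h1, sub_self]
    · simp only [hvk]
      rw [map_sub, map_smul, hDq, hDv, smul_zero, sub_zero]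
    · exact h2
    · intro h
      apply h1
      rw [h]
      exact hDq
    · exact ha
    · exact hb
  intro l
  have t1 : Tendsto (fun k => ‖a • xs k + b • x‖) atTop (𝓝 ‖a • z + b • x‖) :=
    ((hxs.const_smul a).add_const _).norm
  have t2 : Tendsto (fun k => ‖a • xs k + b • x + l • vk k‖) atTop (𝓝 ‖a • z + b • x + l • v‖) :=
    (((hxs.const_smul a).add_const _).add (hvt.const_smul l)).norm
  exact le_of_tendsto_of_tendsto t1 t2 (hBJ.mono fun k hk => hk l)

end Pool.Agent.Q18.KS3
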